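import Pool.Agent.Helper6.HL.Tree

/-!
Weighted proper colourings of a finite tree (a `SimpleGraph`) as `X w w F`, and the path graph.
-/

set_option autoImplicit false

namespace Pool.Agent.Helper6.HL

open Finset Classical

variable {q : ℕ}

/-- proper colourings -/
def Proper {V : Type} (G : SimpleGraph V) (c : V → Fin q) : Prop :=
  ∀ a b, G.Adj a b → c a ≠ c b

/-- weighted number of proper colourings; `g v i` is the weight of colour `i` at `v` -/
noncomputable def Y {V : Type} [Fintype V] [DecidableEq V] (G : SimpleGraph V)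
    (g : V → Fin q → ℝ) : ℝ :=
  ∑ c : V → Fin q, if Proper G c then ∏ v, g v (c v) else 0

theorem Y_leaf {V : Type} [Fintype V] [DecidableEq V] (G : SimpleGraph V) (v u : V) (huv : u ≠ v)
    (hadj : ∀ x, G.Adj v x ↔ x = u) (g : V → Fin q → ℝ) :
    Y G g = Y (G.induce ({v}ᶜ : Set V)) (fun x j => g x j *
      if (x : V) = u then ∑ i ∈ univ.erase j, g v i else 1) := by
  let e : (V → Fin q) ≃ Fin q × (({v}ᶜ : Set V) → Fin q) := Equiv.funSplitAt v (Fin q)
  rw [Y, ← e.symm.sum_comp, Fintype.sum_prod_type_right, Y]
  refine sum_congr rfl fun c _ => ?_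
  have hev : ∀ i, e.symm (i, c) v = i := fun i => by
    have := congrArg Prod.fst (e.apply_symm_apply (i, c))
    exact this
  have hex : ∀ i (x : ({v}ᶜ : Set V)), e.symm (i, c) x = c x := fun i x => by
    have := congrArg Prod.snd (e.apply_symm_apply (i, c))
    exact congrFun this x
  have hprod : ∀ i, ∏ x, g x (e.symm (i, c) x) =
      g v i * ∏ x : ({v}ᶜ : Set V), g x (c x) := fun i => by
    rw [Fintype.prod_eq_mul_prod_subtype_ne _ v, hev]
    congr 1
    exact Fintype.prod_congr _ _ fun x => by rw [hex i x]
  have huv' : u ∈ ({v}ᶜ : Set V) := huv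
  have hprop : ∀ i, Proper G (e.symm (i, c)) ↔
      (Proper (G.induce ({v}ᶜ : Set V)) c ∧ i ≠ c ⟨u, huv'⟩) := by
    intro i
    constructor
    · intro h
      refine ⟨fun a b hab => ?_, ?_⟩
      · have := h a b hab
        rwa [hex, hex] at this
      · have := h v u ((hadj u).2 rfl)
        rw [hev] at this
        have h2 := hex i ⟨u, huv'⟩
        rw [h2] at this
        exact this
    · rintro ⟨h1, h2⟩ a b hab
      by_cases ha : a = v
      · subst ha
        have hb : b = u := (hadj b).1 hab
        subst hb
        rw [hev]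
        have := hex i ⟨b, huv'⟩
        rw [this]
        exact h2
      · by_cases hb : b = v
        · subst hb
          have ha' : a = u := (hadj a).1 hab.symm
          subst ha'
          rw [hev]
          have := hex i ⟨a, huv'⟩
          rw [this]
          exact h2.symm
        · have h3 := h1 ⟨a, ha⟩ ⟨b, hb⟩ hab
          have e1 := hex i ⟨a, ha⟩
          have e2 := hex i ⟨b, hb⟩
          rw [e1, e2]
          exact h3
  by_cases hc : Proper (G.induce ({v}ᶜ : Set V)) c
  · rw [if_pos hc]
    have h1 : ∀ i, (if Proper G (e.symm (i, c)) then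
        ∏ x, g x (e.symm (i, c) x) else 0) =
        if i ≠ c ⟨u, huv'⟩ then g v i * ∏ x : ({v}ᶜ : Set V), g x (c x) else 0 := fun i => by
      rw [hprod i]
      by_cases hi : i ≠ c ⟨u, huv'⟩
      · rw [if_pos hi, if_pos ((hprop i).2 ⟨hc, hi⟩)]
      · rw [if_neg hi, if_neg fun h => hi ((hprop i).1 h).2]
    rw [sum_congr rfl fun i _ => h1 i, ← sum_filter, ← sum_mul]
    have h2 : (univ.filter fun i => i ≠ c ⟨u, huv'⟩) = univ.erase (c ⟨u, huv'⟩) := by
      ext i; simp
    rw [h2, prod_mul_distrib]
    have h3 : (∏ x : ({v}ᶜ : Set V), if (x : V) = u then ∑ i ∈ univ.erase (c x), g v i else 1) =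
        ∑ i ∈ univ.erase (c ⟨u, huv'⟩), g v i := by
      rw [Fintype.prod_eq_single (⟨u, huv'⟩ : ({v}ᶜ : Set V))]
      · simp
      · intro x hx
        rw [if_neg]
        intro h
        exact hx (Subtype.ext h)
    rw [h3, mul_comm]
  · rw [if_neg hc]
    refine sum_eq_zero fun i _ => if_neg fun h => hc ((hprop i).1 h).1

theorem exists_B (w : Fin q → ℝ) (n : ℕ) : ∀ (V : Type) [Fintype V] [DecidableEq V] (G : SimpleGraph V),
    Fintype.card V = n + 1 → G.IsTree → ∀ F : V → B, ∃ H : B,
      H.size + 1 = ∑ v, ((F v).size + 1) ∧ Y G (fun v i => w i * M w (F v) i) = X w w H := by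
  induction n with
  | zero =>
    intro V _ _ G hV _ F
    obtain ⟨v, hv⟩ := Fintype.card_eq_one_iff.1 hV
    haveI : Unique V := ⟨⟨v⟩, hv⟩
    refine ⟨F default, by simp, ?_⟩
    rw [Y, X, ← (Equiv.funUnique V (Fin q)).symm.sum_comp]
    refine sum_congr rfl fun i _ => ?_
    rw [if_pos]
    · simp
    · intro a b hab
      exact absurd hab (by rw [Subsingleton.elim a b]; exact G.irrefl)
  | succ n ih =>
    intro V _ _ G hV hT F
    haveI : Nontrivial V := Fintype.one_lt_card_iff_nontrivial.1 (by omega)
    obtain ⟨v, hv⟩ := hT.exists_vert_degree_one_of_nontrivial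
    obtain ⟨u, hu1, hu2⟩ := SimpleGraph.degree_eq_one_iff_existsUnique_adj.1 hv
    have huv : u ≠ v := hu1.ne'
    have hadj : ∀ x, G.Adj v x ↔ x = u := fun x => ⟨fun h => hu2 x h, fun h => h ▸ hu1⟩
    have hT' : (G.induce ({v}ᶜ : Set V)).IsTree :=
      ⟨hT.connected.induce_compl_singleton_of_degree_eq_one hv, hT.isAcyclic.induce _⟩
    have hcard : Fintype.card ({v}ᶜ : Set V) = n + 1 := by
      rw [Fintype.card_compl_set, hV]; simp
    obtain ⟨H, h1, h2⟩ := ih ({v}ᶜ : Set V) (G.induce ({v}ᶜ : Set V)) hcard hT'
      (fun x => if (x : V) = u then .cons (F v) (F x) else F x)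
    refine ⟨H, ?_, ?_⟩
    · rw [h1, Fintype.sum_eq_add_sum_subtype_ne _ v]
      have huv' : u ∈ ({v}ᶜ : Set V) := huv
      have h3 : ∀ x : ({v}ᶜ : Set V),
          (if (x : V) = u then B.cons (F v) (F x) else F x).size + 1 =
          ((F x).size + 1) + if (x : V) = u then (F v).size + 1 else 0 := fun x => by
        by_cases hx : (x : V) = u
        · simp only [hx, if_true, B.size]; omega
        · simp only [hx, if_false, add_zero]
      rw [sum_congr rfl fun x _ => h3 x, sum_add_distrib]
      have h4 : (∑ x : ({v}ᶜ : Set V), if (x : V) = u then (F v).size + 1 else 0) =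
          (F v).size + 1 := by
        rw [Fintype.sum_eq_single (⟨u, huv'⟩ : ({v}ᶜ : Set V))]
        · simp
        · intro x hx
          rw [if_neg]
          intro h
          exact hx (Subtype.ext h)
      rw [h4, add_comm]
      rfl
    · rw [← h2, Y_leaf G v u huv hadj]
      congr 1
      funext x j
      by_cases hx : (x : V) = u
      · simp only [hx, if_true, M_cons]; ring
      · simp only [hx, if_false, mul_one]

theorem exists_B' (w : Fin q → ℝ) {n : ℕ} (T : SimpleGraph (Fin n)) (hT : T.IsTree) :
    ∃ H : B, H.size + 1 = n ∧ Y T (fun _ i => w i) = X w w H := by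
  have hn : n ≠ 0 := by
    rintro rfl
    exact (hT.connected.nonempty.some).elim0
  obtain ⟨m, rfl⟩ := Nat.exists_eq_succ_of_ne_zero hn
  obtain ⟨H, h1, h2⟩ := exists_B w m (Fin (m + 1)) T (by simp) hT (fun _ => .nil)
  refine ⟨H, by simpa [B.size] using h1, ?_⟩
  rw [← h2]
  simp [M_nil]

/-- the path graph -/
theorem Y_path (w v : Fin q → ℝ) (k : ℕ) :
    Y (SimpleGraph.pathGraph (k + 1)) (fun x i => if x = 0 then v i else w i) =
      X w v (B.path k) := by
  induction k generalizing v with
  | zero =>
    rw [Y, X, ← (Equiv.funUnique (Fin 1) (Fin q)).symm.sum_comp]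
    refine sum_congr rfl fun i _ => ?_
    rw [if_pos]
    · simp [B.path, M_nil]
    · intro a b hab
      have : a = b := Subsingleton.elim (α := Fin 1) a b
      subst this
      exact absurd hab (SimpleGraph.irrefl _)
  | succ k ih =>
    have h1 : X w v (B.path (k + 1)) =
        X w (fun j => w j * ∑ i ∈ univ.erase j, v i) (B.path k) := by
      have e1 : X w v (B.path (k + 1)) =
          (∑ i, v i) * (∑ j, w j * M w (B.path k) j) - ∑ j, v j * (w j * M w (B.path k) j) := by
        rw [X, sum_mul, ← sum_sub_distrib]
        refine sum_congr rfl fun i _ => ?_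
        rw [B.path, M_cons', X, M_nil]; ring
      rw [e1, mul_sum, ← sum_sub_distrib, X]
      refine sum_congr rfl fun j _ => ?_
      rw [← sum_erase_add univ (fun i => v i) (mem_univ j)]
      ring
    rw [h1, ← ih, Y, ← (Fin.consEquiv fun _ => Fin q).sum_comp, Fintype.sum_prod_type_right, Y]
    refine sum_congr rfl fun c _ => ?_
    have hprop : ∀ i : Fin q, Proper (SimpleGraph.pathGraph (k + 1 + 1))
        ((Fin.consEquiv fun _ => Fin q) (i, c)) ↔
        (Proper (SimpleGraph.pathGraph (k + 1)) c ∧ i ≠ c 0) := by
      intro i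
      simp only [Proper, SimpleGraph.pathGraph_adj, Fin.consEquiv_apply]
      constructor
      · intro h
        refine ⟨fun a b hab => ?_, ?_⟩
        · have := h a.succ b.succ (by simp only [Fin.val_succ]; omega)
          simpa using this
        · have := h 0 (Fin.succ 0) (Or.inl (by simp))
          simpa using this
      · rintro ⟨h1, h2⟩ a b hab
        refine Fin.cases ?_ (fun a' => ?_) a hab <;> intro hab
        · refine Fin.cases ?_ (fun b' => ?_) b hab <;> intro hab
          · simp at hab
          · have hb : b' = 0 := by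
              apply Fin.ext
              simp only [Fin.val_zero, Fin.val_succ] at hab ⊢
              omega
            subst hb
            simpa using h2
        · refine Fin.cases ?_ (fun b' => ?_) b hab <;> intro hab
          · have hb : a' = 0 := by
              apply Fin.ext
              simp only [Fin.val_zero, Fin.val_succ] at hab ⊢
              omega
            subst hb
            simpa using h2.symm
          · have := h1 a' b' (by simp only [Fin.val_succ] at hab; omega)
            simpa using this
    have hprod : ∀ i : Fin q, (∏ x, if x = 0 then v ((Fin.consEquiv fun _ => Fin q) (i, c) x)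
        else w ((Fin.consEquiv fun _ => Fin q) (i, c) x)) = v i * ∏ x, w (c x) := by
      intro i
      rw [Fin.prod_univ_succ]
      simp
    simp only [hprop, hprod]
    by_cases hc : Proper (SimpleGraph.pathGraph (k + 1)) c
    · rw [if_pos hc]
      have h3 : ∀ i : Fin q, (if Proper (SimpleGraph.pathGraph (k + 1)) c ∧
          i ≠ c 0 then v i * ∏ x, w (c x) else 0) =
          if i ≠ c 0 then v i * ∏ x, w (c x) else 0 := fun i => by simp only [hc, true_and]
      rw [sum_congr rfl fun i _ => h3 i, ← sum_filter, ← sum_mul]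
      have h2 : (univ.filter fun i => i ≠ c 0) = univ.erase (c 0) := by ext i; simp
      rw [h2, Fin.prod_univ_succ, Fin.prod_univ_succ]
      simp
      ring
    · rw [if_neg hc]
      refine sum_eq_zero fun i _ => if_neg fun h => hc h.1

theorem Y_path' (w : Fin q → ℝ) (k : ℕ) :
    Y (SimpleGraph.pathGraph (k + 1)) (fun _ i => w i) = X w w (B.path k) := by
  rw [← Y_path]
  congr 1
  funext x i
  split <;> rfl

/-- counting maps into a set with a partition into `q` parts -/
theorem card_eq_Y {V W : Type} [Fintype V] [DecidableEq V] [Fintype W] (p : W → Fin q) (G : SimpleGraph V) :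
    (Nat.card {f : V → W // ∀ a b : V, G.Adj a b → p (f a) ≠ p (f b)} : ℝ) =
      Y G (fun _ i => (Nat.card {x : W // p x = i} : ℝ)) := by
  rw [Nat.card_eq_fintype_card, Fintype.card_subtype, ← Finset.sum_boole, Y,
    ← Finset.sum_fiberwise univ (fun f : V → W => fun v => p (f v))]
  refine sum_congr rfl fun c _ => ?_
  have h1 : ∀ f ∈ univ.filter (fun f : V → W => (fun v => p (f v)) = c),
      (if (∀ a b : V, G.Adj a b → p (f a) ≠ p (f b)) then (1 : ℝ) else 0) =
      if Proper G c then 1 else 0 := by
    intro f hf
    simp only [mem_filter, mem_univ, true_and] at hf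
    subst hf
    by_cases h : Proper G (fun v => p (f v))
    · rw [if_pos h]; exact if_pos h
    · rw [if_neg h]; exact if_neg h
  rw [sum_congr rfl h1, sum_const, nsmul_eq_mul]
  by_cases hc : Proper G c
  · rw [if_pos hc, if_pos hc, mul_one, ← Fintype.card_subtype]
    have e : {f : V → W // (fun v => p (f v)) = c} ≃ ∀ v : V, {x : W // p x = c v} :=
      { toFun := fun f v => ⟨f.1 v, congrFun f.2 v⟩
        invFun := fun f => ⟨fun v => (f v).1, funext fun v => (f v).2⟩
        left_inv := fun f => rfl
        right_inv := fun f => rfl }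
    rw [Fintype.card_congr e, Fintype.card_pi]
    push_cast
    simp [Nat.card_eq_fintype_card]
  · rw [if_neg hc, if_neg hc, mul_zero]

end Pool.Agent.Helper6.HL
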