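import Mathlib

/-!
Weighted proper colourings of rooted trees (transfer vectors).
`B` codes a forest hanging at a vertex: `cons c s` has a first child, whose own forest is `c`,
and the remaining children `s`.
-/

set_option autoImplicit false

namespace Pool.Agent.Helper6.HL

/-- forests hanging at a vertex -/
inductive B : Type
  | nil : B
  | cons : B → B → B

namespace B

/-- number of vertices of the forest -/
def size : B → ℕ
  | nil => 0
  | cons c s => size c + 1 + size s

/-- concatenation of forests -/
def app : B → B → B
  | nil, t => t
  | cons c s, t => cons c (app s t)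

/-- the path with `k` vertices hanging by its end -/
def path : ℕ → B
  | 0 => nil
  | k + 1 => cons (path k) nil

theorem size_app (s t : B) : (app s t).size = s.size + t.size := by
  induction s with
  | nil => simp [app, size]
  | cons c s _ ih => simp [app, size, ih]; ring

theorem size_path (k : ℕ) : (path k).size = k := by
  induction k with
  | zero => rfl
  | succ k ih => simp [path, size, ih]

end B

variable {q : ℕ} (w : Fin q → ℝ)

/-- weighted number of proper colourings of the forest, given the colour `i` of the vertex it
hangs at -/
noncomputable def M : B → Fin q → ℝ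
  | .nil, _ => 1
  | .cons c s, i => (∑ j ∈ Finset.univ.erase i, w j * M c j) * M s i

/-- weighted number of proper colourings of the tree whose root has weights `v` -/
noncomputable def X (v : Fin q → ℝ) (F : B) : ℝ := ∑ i, v i * M w F i

variable {w}

theorem M_nil (i : Fin q) : M w .nil i = 1 := rfl

theorem M_cons (c s : B) (i : Fin q) :
    M w (.cons c s) i = (∑ j ∈ Finset.univ.erase i, w j * M w c j) * M w s i := rfl

theorem M_cons' (c s : B) (i : Fin q) :
    M w (.cons c s) i = (X w w c - w i * M w c i) * M w s i := by
  rw [M_cons, X, ← Finset.sum_erase_add Finset.univ _ (Finset.mem_univ i)]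
  ring

theorem M_nonneg (hw : ∀ i, 0 ≤ w i) (F : B) (i : Fin q) : 0 ≤ M w F i := by
  induction F generalizing i with
  | nil => simp [M_nil]
  | cons c s ihc ihs =>
    rw [M_cons]
    exact mul_nonneg (Finset.sum_nonneg fun j _ => mul_nonneg (hw j) (ihc j)) (ihs i)

theorem M_app (s t : B) (i : Fin q) : M w (B.app s t) i = M w s i * M w t i := by
  induction s with
  | nil => simp [B.app, M_nil]
  | cons c s _ ih => simp only [B.app, M_cons, ih]; ring

theorem M_swap (a b s : B) (i : Fin q) :
    M w (.cons a (.cons b s)) i = M w (.cons b (.cons a s)) i := by
  simp only [M_cons]; ring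

theorem X_congr (v : Fin q → ℝ) {F G : B} (h : ∀ i, M w F i = M w G i) : X w v F = X w v G := by
  simp only [X, h]

/-- rerooting along the edge from the root to its first child -/
theorem X_reroot (c s : B) : X w w (.cons c s) = X w w (.cons s c) := by
  have key : ∀ c s : B, X w w (.cons c s) =
      X w w c * X w w s - ∑ i, w i * M w c i * (w i * M w s i) := by
    intro c s
    have : ∀ i, w i * M w (.cons c s) i =
        X w w c * (w i * M w s i) - w i * M w c i * (w i * M w s i) := by
      intro i; rw [M_cons']; ring
    rw [X, Finset.sum_congr rfl fun i _ => this i, Finset.sum_sub_distrib, ← Finset.mul_sum]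
    rfl
  rw [key, key, mul_comm (X w w c)]
  congr 1
  exact Finset.sum_congr rfl fun i _ => by ring

theorem X_nonneg (hw : ∀ i, 0 ≤ w i) {v : Fin q → ℝ} (hv : ∀ i, 0 ≤ v i) (F : B) :
    0 ≤ X w v F := Finset.sum_nonneg fun i _ => mul_nonneg (hv i) (M_nonneg hw F i)

/-- every nonempty rooted tree can be rerooted so that some child of the root is a leaf -/
theorem exists_leaf_child (c s : B) :
    ∃ t : B, t.size + 1 = c.size + 1 + s.size ∧ X w w (.cons c s) = X w w (.cons .nil t) := by
  induction c generalizing s with
  | nil => exact ⟨s, by simp [B.size]; ring, rfl⟩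
  | cons a b iha _ =>
    -- reroot at the first child, then make its child `a` the first child of the root
    have h1 : X w w (.cons (.cons a b) s) = X w w (.cons s (.cons a b)) := X_reroot _ _
    have h2 : X w w (.cons s (.cons a b)) = X w w (.cons a (.cons s b)) :=
      X_congr w fun i => M_swap _ _ _ i
    obtain ⟨t, ht, h3⟩ := iha (.cons s b)
    refine ⟨t, ?_, by rw [h1, h2, h3]⟩
    simp only [B.size] at ht ⊢
    omega

end Pool.Agent.Helper6.HL
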