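import Pool.Agent.Helper6.HL.Tree

/-!
Two-valued weights: among all trees the path minimises the weighted number of proper colourings.
-/

set_option autoImplicit false

namespace Pool.Agent.Helper6.HL

open Finset

namespace B

/-- every first-level branch satisfies `Q` -/
def All (Q : B → Prop) : B → Prop
  | nil => True
  | cons c s => Q c ∧ All Q s

end B

variable {q : ℕ} {w : Fin q → ℝ}

theorem exists_front {Q : B → Prop} {F : B} (h : ¬ B.All Q F) :
    ∃ c s : B, (∀ i, M w F i = M w (.cons c s) i) ∧ c.size + 1 + s.size = F.size ∧ ¬ Q c := by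
  induction F with
  | nil => exact absurd trivial h
  | cons c s _ ih =>
    by_cases hc : Q c
    · have hs : ¬ B.All Q s := fun hs => h ⟨hc, hs⟩
      obtain ⟨c', s', h1, h2, h3⟩ := ih hs
      refine ⟨c', .cons c s', fun i => ?_, ?_, h3⟩
      · rw [M_cons, h1, ← M_cons, M_swap]
      · simp only [B.size]; omega
    · exact ⟨c, s, fun _ => rfl, rfl, hc⟩

/-- heavy class below light class -/
def Le (cls : Fin q → Prop) (f : Fin q → ℝ) : Prop := ∀ i j, cls i → ¬ cls j → f i ≤ f j

/-- heavy class above light class -/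
def Ge (cls : Fin q → Prop) (f : Fin q → ℝ) : Prop := ∀ i j, cls i → ¬ cls j → f j ≤ f i

/-- constant on the classes -/
def Cc (cls : Fin q → Prop) (f : Fin q → ℝ) : Prop := ∀ i j, (cls i ↔ cls j) → f i = f j

theorem le_or_ge {cls : Fin q → Prop} {f : Fin q → ℝ} (h : Cc cls f) : Le cls f ∨ Ge cls f := by
  by_contra hcon
  simp only [Le, Ge, not_or, not_forall, not_le] at hcon
  obtain ⟨⟨i, j, hi, hj, h1⟩, ⟨i', j', hi', hj', h2⟩⟩ := hcon
  have e1 := h i i' (iff_of_true hi hi')
  have e2 := h j j' (iff_of_false hj hj')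
  linarith

theorem cc_M {cls : Fin q → Prop} (hw : Cc cls w) (F : B) : Cc cls (M w F) := by
  induction F with
  | nil => intro i j _; rfl
  | cons c s ihc ihs =>
    intro i j hij
    rw [M_cons', M_cons', ihc i j hij, ihs i j hij, hw i j hij]

theorem antivary_of {cls : Fin q → Prop} {f g : Fin q → ℝ} (hf : Cc cls f) (hg : Cc cls g)
    (h : (Le cls f ∧ Ge cls g) ∨ (Ge cls f ∧ Le cls g)) : Antivary f g := by
  intro i j hij
  by_cases hi : cls i <;> by_cases hj : cls j
  · exact absurd (hg i j (iff_of_true hi hj)) hij.ne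
  · rcases h with h | h
    · exact absurd (h.2 i j hi hj) (not_le.2 hij)
    · exact h.1 i j hi hj
  · rcases h with h | h
    · exact h.1 j i hj hi
    · exact absurd (h.2 j i hj hi) (not_le.2 hij)
  · exact absurd (hg i j (iff_of_false hi hj)) hij.ne

/-- first move: all other branches are moved to the neighbour of the unit vertex -/
theorem move_p (c s : B) (h : Antivary (M w s) (fun i => w i * M w c i)) :
    ((q : ℝ) - 1) * X w w (B.app c s) ≤ X w (fun _ => 1) (.cons c s) := by
  have h1 : X w w (B.app c s) = ∑ i, M w s i * (w i * M w c i) :=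
    sum_congr rfl fun i _ => by rw [M_app]; ring
  have h2 : X w (fun _ => 1) (.cons c s) =
      (∑ i, M w s i) * (∑ i, w i * M w c i) - ∑ i, M w s i * (w i * M w c i) := by
    rw [X, sum_mul, ← sum_sub_distrib]
    refine sum_congr rfl fun i _ => ?_
    rw [M_cons', X]; ring
  have h3 := h.card_mul_sum_le_sum_mul_sum
  simp only [Fintype.card_fin] at h3
  rw [h1, h2]
  linarith

/-- second move: all other branches are moved to a vertex at distance two from the unit vertex -/
theorem move_z (hw : ∀ i, 0 ≤ w i) (z c s : B)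
    (h : Antivary (M w s) (fun i => w i * M w z i)) :
    ((q : ℝ) - 1) * X w w (.cons (B.app z s) c) ≤ X w (fun _ => 1) (.cons (.cons z c) s) := by
  have h1 : X w w (.cons (B.app z s) c) =
      ∑ k, (w k * M w c k) * ∑ j ∈ univ.erase k, M w s j * (w j * M w z j) := by
    refine sum_congr rfl fun k _ => ?_
    rw [M_cons]
    have : ∑ j ∈ univ.erase k, w j * M w (B.app z s) j =
        ∑ j ∈ univ.erase k, M w s j * (w j * M w z j) :=
      sum_congr rfl fun j _ => by rw [M_app]; ring
    rw [this]; ring
  have h2 : X w (fun _ => 1) (.cons (.cons z c) s) =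
      ∑ k, (w k * M w c k) * ((∑ j ∈ univ.erase k, M w s j) *
        ∑ j ∈ univ.erase k, w j * M w z j) := by
    have e1 : X w (fun _ => 1) (.cons (.cons z c) s) =
        (∑ i, M w s i) * (∑ k, w k * M w (.cons z c) k) -
          ∑ k, M w s k * (w k * M w (.cons z c) k) := by
      rw [X, sum_mul, ← sum_sub_distrib]
      refine sum_congr rfl fun i _ => ?_
      rw [M_cons', X]; ring
    rw [e1, mul_sum, ← sum_sub_distrib]
    refine sum_congr rfl fun k _ => ?_
    rw [← sum_erase_add univ (fun i => M w s i) (mem_univ k), M_cons]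
    ring
  rw [h1, h2, mul_sum]
  refine sum_le_sum fun k _ => ?_
  have h3 := (h.antivaryOn (univ.erase k : Finset (Fin q))).card_mul_sum_le_sum_mul_sum
  have hc : ((univ.erase k : Finset (Fin q)).card : ℝ) = (q : ℝ) - 1 := by
    rw [card_erase_of_mem (mem_univ k), card_univ, Fintype.card_fin,
      Nat.cast_sub (by have := k.pos; omega), Nat.cast_one]
  rw [hc] at h3
  calc ((q : ℝ) - 1) * ((w k * M w c k) * ∑ j ∈ univ.erase k, M w s j * (w j * M w z j))
      = (w k * M w c k) * (((q : ℝ) - 1) *
          ∑ j ∈ univ.erase k, M w s j * (w j * M w z j)) := by ring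
    _ ≤ _ := mul_le_mul_of_nonneg_left h3 (mul_nonneg (hw k) (M_nonneg hw c k))

theorem le_M_of_all {cls : Fin q → Prop} (hw : ∀ i, 0 ≤ w i) {s : B}
    (h : B.All (fun c => Ge cls fun i => w i * M w c i) s) : Le cls (M w s) := by
  induction s with
  | nil => intro i j _ _; simp [M_nil]
  | cons c s _ ih =>
    intro i j hi hj
    have h1 := h.1 i j hi hj
    have h2 := ih h.2 i j hi hj
    rw [M_cons', M_cons']
    refine mul_le_mul (by simp only at h1; linarith) h2 (M_nonneg hw s i) ?_
    rw [X, ← sum_erase_add univ _ (mem_univ j)]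
    have : 0 ≤ ∑ x ∈ univ.erase j, w x * M w c x :=
      sum_nonneg fun x _ => mul_nonneg (hw x) (M_nonneg hw c x)
    linarith

theorem ge_M_of_all {cls : Fin q → Prop} (hw : ∀ i, 0 ≤ w i) {s : B}
    (h : B.All (fun c => Le cls fun i => w i * M w c i) s) : Ge cls (M w s) := by
  induction s with
  | nil => intro i j _ _; simp [M_nil]
  | cons c s _ ih =>
    intro i j hi hj
    have h1 := h.1 i j hi hj
    have h2 := ih h.2 i j hi hj
    rw [M_cons', M_cons']
    refine mul_le_mul (by simp only at h1; linarith) h2 (M_nonneg hw s j) ?_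
    rw [X, ← sum_erase_add univ _ (mem_univ i)]
    have : 0 ≤ ∑ x ∈ univ.erase i, w x * M w c x :=
      sum_nonneg fun x _ => mul_nonneg (hw x) (M_nonneg hw c x)
    linarith

/-- removal of the unit vertex -/
theorem unit_step {cls : Fin q → Prop} (hw : ∀ i, 0 ≤ w i) (hc : Cc cls w) (hg : Ge cls w)
    (c s : B) : ∃ F : B, F.size + 1 = c.size + 1 + s.size ∧
      ((q : ℝ) - 1) * X w w F ≤ X w (fun _ => 1) (.cons c s) := by
  have ccg : ∀ F : B, Cc cls (fun i => w i * M w F i) := fun F i j hij => by
    simp only; rw [hc i j hij, cc_M hc F i j hij]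
  -- the move to the neighbour
  have P : ∀ c s : B, ((Le cls (M w s) ∧ Ge cls fun i => w i * M w c i) ∨
      (Ge cls (M w s) ∧ Le cls fun i => w i * M w c i)) →
      ∃ F : B, F.size + 1 = c.size + 1 + s.size ∧
        ((q : ℝ) - 1) * X w w F ≤ X w (fun _ => 1) (.cons c s) := by
    intro c s h
    exact ⟨B.app c s, by rw [B.size_app]; omega,
      move_p c s (antivary_of (cc_M hc s) (ccg c) h)⟩
  by_cases hall : B.All (fun c => Ge cls fun i => w i * M w c i) (.cons c s)
  · exact P c s (Or.inl ⟨le_M_of_all hw hall.2, hall.1⟩)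
  · obtain ⟨c', s', h1, h2, h3⟩ := exists_front (w := w) hall
    have hX : X w (fun _ => 1) (.cons c s) = X w (fun _ => 1) (.cons c' s') := X_congr _ h1
    rw [hX]
    have hsz : c.size + 1 + s.size = c'.size + 1 + s'.size := by
      simp only [B.size] at h2; omega
    rw [hsz]
    have hle : Le cls fun i => w i * M w c' i := (le_or_ge (ccg c')).resolve_right h3
    rcases le_or_ge (cc_M hc s') with hs | hs
    · -- some grandchild is heavy
      by_cases hz : B.All (fun z => Le cls fun i => w i * M w z i) c'
      · exfalso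
        apply h3
        intro i j hi hj
        have := ge_M_of_all hw hz i j hi hj
        exact mul_le_mul (hg i j hi hj) this (M_nonneg hw c' j) (hw i)
      · obtain ⟨z, t, g1, g2, g3⟩ := exists_front (w := w) hz
        have hX2 : X w (fun _ => 1) (.cons c' s') = X w (fun _ => 1) (.cons (.cons z t) s') := by
          refine X_congr _ fun i => ?_
          rw [M_cons, M_cons]
          congr 1
          exact sum_congr rfl fun j _ => by rw [g1 j]
        rw [hX2]
        refine ⟨.cons (B.app z s') t, ?_, move_z hw z t s' (antivary_of (cc_M hc s') (ccg z)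
          (Or.inl ⟨hs, (le_or_ge (ccg z)).resolve_left g3⟩))⟩
        simp only [B.size, B.size_app] at g2 ⊢
        omega
    · exact P c' s' (Or.inr ⟨hs, hle⟩)

/-- leaf at an ordinary vertex -/
theorem leaf_step {cls : Fin q → Prop} {a b : ℝ} (ha : ∀ i, cls i → w i = a)
    (hb : ∀ i, ¬ cls i → w i = b) (t : B) :
    X w w (.cons .nil t) =
      ((∑ i, w i) - a - b) * X w w t + a * b * X w (fun _ => 1) t := by
  simp only [X, mul_sum, ← sum_add_distrib]
  refine sum_congr rfl fun i _ => ?_
  rw [M_cons']
  have : X w w .nil = ∑ i, w i := by simp [X, M_nil]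
  rw [this, M_nil]
  by_cases hi : cls i
  · rw [ha i hi]; ring
  · rw [hb i hi]; ring

theorem two_main {cls : Fin q → Prop} {a b : ℝ} (ha : ∀ i, cls i → w i = a)
    (hb : ∀ i, ¬ cls i → w i = b) (h0 : 0 ≤ b) (hab : b ≤ a) (hS : a + b ≤ ∑ i, w i)
    (hq : 1 ≤ q) (k : ℕ) :
    (∀ F : B, F.size = k → X w w (B.path k) ≤ X w w F) ∧
    (∀ F : B, F.size = k → X w (fun _ => 1) (B.path k) ≤ X w (fun _ => 1) F) := by
  have hw : ∀ i, 0 ≤ w i := fun i => by
    by_cases hi : cls i
    · rw [ha i hi]; linarith
    · rw [hb i hi]; exact h0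
  have hc : Cc cls w := fun i j hij => by
    by_cases hi : cls i
    · rw [ha i hi, ha j (hij.1 hi)]
    · rw [hb i hi, hb j (fun hj => hi (hij.2 hj))]
  have hg : Ge cls w := fun i j hi hj => by rw [ha i hi, hb j hj]; exact hab
  induction k with
  | zero =>
    constructor <;>
    · intro F hF
      cases F with
      | nil => exact le_rfl
      | cons c s => simp [B.size] at hF
  | succ k ih =>
    constructor
    · intro F hF
      cases F with
      | nil => simp [B.size] at hF
      | cons c s =>
        obtain ⟨t, ht, h1⟩ := exists_leaf_child (w := w) c s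
        have hk : t.size = k := by simp only [B.size] at hF; omega
        have hp : X w w (B.path (k + 1)) = X w w (.cons .nil (B.path k)) := X_reroot _ _
        rw [h1, hp, leaf_step ha hb, leaf_step ha hb]
        exact add_le_add
          (mul_le_mul_of_nonneg_left (ih.1 t hk) (by linarith))
          (mul_le_mul_of_nonneg_left (ih.2 t hk) (mul_nonneg (h0.trans hab) h0))
    · intro F hF
      cases F with
      | nil => simp [B.size] at hF
      | cons c s =>
        obtain ⟨F', h1, h2⟩ := unit_step hw hc hg c s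
        have hk : F'.size = k := by simp only [B.size] at hF; omega
        have hp : X w (fun _ => 1) (B.path (k + 1)) = ((q : ℝ) - 1) * X w w (B.path k) := by
          have : X w (fun _ => 1) (B.path (k + 1)) =
              ∑ i, (X w w (B.path k) - w i * M w (B.path k) i) :=
            sum_congr rfl fun i _ => by rw [B.path, M_cons', M_nil]; ring
          rw [this, sum_sub_distrib, sum_const, card_univ, Fintype.card_fin, nsmul_eq_mul]
          simp only [X]; ring
        rw [hp]
        refine le_trans (mul_le_mul_of_nonneg_left (ih.1 F' hk) ?_) h2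
        have : (1 : ℝ) ≤ q := by exact_mod_cast hq
        linarith

end Pool.Agent.Helper6.HL
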